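import Mathlib
import Pool.Agent.Run7.h595.CM.Export
import Pool.Agent.H248R5.Gen
import Pool.Agent.H248R6.Dim

set_option autoImplicit false

/-!
# Unions of nonspecial systems of the same critical degree: nonspecial, and smooth members

A system is a multiset `v` of multiplicities at general points of the complex projective plane. A
system `v` is `Critical D` if its number of conditions is between those of one point of multiplicity
`D` and one point of multiplicity `D + 1`, and if it is nonspecial in the two degrees `D - 1` and `D`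
(this is a finite check; there is no condition on the multiplicities). Uniform systems (`N` points
of the same multiplicity) with `N = 1`, `N = 21`, `N ≥ 37` or `N` as in (a) are critical (last part
of the theorem).

Let `w` be
(a) the union of `n` systems which are `Critical D` for the same `D ≥ 1`, where `n` is
`4 ^ (k + 1)`, `9 * 4 ^ k` or `13 * 4 ^ k`, or divisible by four and at least `144`, or at least
`200` (so four or nine systems are enough, and the ratios of the multiplicities and the number of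
different ones are not bounded), or
(b) the union of `N - n` points of multiplicity `m` and `n` systems which are `Critical m`, where
`N ≥ 37`, `m ≥ (N + 6) / 2` and `n < 7 √N / 6 - c / 2 - 9 / 8` or
`n ≤ N / 4 - c - 2 √N / 3 - 23 / 8`, `c = 0, 5, 2, 3` for `N ≡ 0, 1, 2, 3` modulo four.

Then for general points `|d H - ∑ w i E i|` is nonspecial for EVERY `d`, and for all `u i ≤ w i` the
system `|d H - ∑ u i E i|` is nonspecial if `∑ (w i + 1).choose 2 ≤ (d + 2).choose 2`, and its general
member is a smooth curve on the blow-up if `∑ (w i + 1).choose 2 ≤ (d + 1).choose 2`. For `u = w`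
these are all the nonempty systems but the one of the smallest degree. Example: one point of
multiplicity `3 m` and `27` points of multiplicity `m`.
-/

namespace Pool.Agent.Results.MP_0421d9_ag.CompositionSmooth

open Pool.Agent Finset Pool.Agent.H248R5 Pool.Agent.H248R6

/-- The multiset of the multiplicities. -/
def mults {n : ℕ} (w : Fin n → ℕ) : Multiset ℕ := Multiset.map w Finset.univ.val

/-- The number of conditions. -/
def conditions (v : Multiset ℕ) : ℕ := (v.map fun a => (a + 1).choose 2).sum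

/-- The system of degree `d` with the multiplicities `v` at general points is nonspecial. -/
def NonSpecial (d : ℕ) (v : Multiset ℕ) : Prop :=
  ∀ (n : ℕ) (w : Fin n → ℕ), mults w = v →
    ∃ F : MvPolynomial (Fin n × Fin 2) ℂ, F ≠ 0 ∧ ∀ P : Fin n → Fin 2 → ℂ,
      MvPolynomial.eval (fun ij : Fin n × Fin 2 => P ij.1 ij.2) F ≠ 0 →
      Module.finrank ℂ ↥(forms w P d) = (d + 2).choose 2 - ∑ i, (w i + 1).choose 2

/-- `v` is nonspecial in the degrees `D - 1` and `D`, and its number of conditions is between those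
of a point of multiplicity `D` and of a point of multiplicity `D + 1`. -/
def Critical (D : ℕ) (v : Multiset ℕ) : Prop :=
  1 ≤ D ∧ (D + 1).choose 2 ≤ conditions v ∧ conditions v ≤ (D + 2).choose 2 ∧
    NonSpecial (D - 1) v ∧ NonSpecial D v

/-- The numbers of blocks. -/
def Number (a : ℕ) : Prop :=
  200 ≤ a ∨ (144 ≤ a ∧ 4 ∣ a) ∨ ∃ k, a = 4 ^ (k + 1) ∨ a = 9 * 4 ^ k ∨ a = 13 * 4 ^ k

/-- `0, 5, 2, 3` for `n ≡ 0, 1, 2, 3` modulo four. -/
def spare (n : ℕ) : ℕ := if n % 4 = 1 then 5 else n % 4

/-- Nonspecial in every degree, and smooth: for general points the conclusions of the theorem. -/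
def Smooth {n : ℕ} (w : Fin n → ℕ) : Prop :=
  ∃ F : MvPolynomial (Fin n × Fin 2) ℂ, F ≠ 0 ∧
    ∀ P : Fin n → Fin 2 → ℂ,
      MvPolynomial.eval (fun ij : Fin n × Fin 2 => P ij.1 ij.2) F ≠ 0 →
      ∀ d : ℕ,
        Module.finrank ℂ ↥(forms w P d) = (d + 2).choose 2 - ∑ i, (w i + 1).choose 2 ∧
        ∀ u : Fin n → ℕ, (∀ i, u i ≤ w i) →
          (∑ i, (w i + 1).choose 2 ≤ (d + 2).choose 2 →
            Module.finrank ℂ ↥(forms u P d) = (d + 2).choose 2 - ∑ i, (u i + 1).choose 2) ∧
          (0 < d → ∑ i, (w i + 1).choose 2 ≤ (d + 1).choose 2 →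
            GeneralMember (forms u P d) (SmoothMember u P))

theorem surj_of {n : ℕ} {w u : Fin n → ℕ} {P : Fin n → Fin 2 → ℂ} {d : ℕ}
    (h : H932R3.ExpDim ℂ w P d) (hd : ∑ i, (w i + 1).choose 2 ≤ (d + 2).choose 2)
    (hu : ∀ i, u i ≤ w i) : Function.Surjective (ev u P d) := by
  refine surj_mono hu (surj_of_ind ?_)
  have h1 : Module.finrank ℂ ↥(forms w P d) = (d + 2).choose 2 - ∑ i, (w i + 1).choose 2 := h
  omega

theorem smooth_of {n : ℕ} {w : Fin n → ℕ} (h : Run7.h595.CM.OpAll ℂ w) : Smooth w := by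
  obtain ⟨F, hF, hF'⟩ := h
  refine ⟨F * disc ℂ n, mul_ne_zero hF (disc_ne ℂ n), fun P hP => ?_⟩
  rw [map_mul] at hP
  have h3 := hF' P (left_ne_zero_of_mul hP)
  refine fun d => ⟨h3 d, fun u hu => ⟨fun hd => ?_, fun hd0 hd => ?_⟩⟩
  · have h4 := finrank_of_surj (surj_of (h3 d) hd hu)
    omega
  · obtain ⟨e, rfl⟩ : ∃ e, d = e + 1 := ⟨d - 1, by omega⟩
    exact general_smooth (inj_of_disc (right_ne_zero_of_mul hP))
      (finrank_of_surj (surj_of (h3 e) hd hu)).le

theorem SM_iff {d : ℕ} {v : Multiset ℕ} : NonSpecial d v ↔ Run7.h595.CM.NS d v :=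
  Run7.h595.CM.SM_iff (K := ℂ)

theorem crit_iff {D : ℕ} {v : Multiset ℕ} : Critical D v ↔ Run7.h595.CM.Crit D v :=
  Run7.h595.CM.CritG_iff (fun _ _ => SM_iff)

theorem result :
    (∀ (n : ℕ) (D : Fin n → ℕ) (v : Fin n → Multiset ℕ) (W : Multiset ℕ),
      (∀ i, Critical (D i) (v i)) →
      ((W = 0 ∧ Number n ∧ ∀ i j, D i = D j) ∨
        (∃ N m : ℕ, 37 ≤ N ∧ n ≤ N ∧ N + 6 ≤ 2 * m ∧ (∀ i, D i = m) ∧
          W = Multiset.replicate (N - n) m ∧
          ((n : ℝ) + (spare N : ℝ) / 2 + 9 / 8 < 7 * √(N : ℝ) / 6 ∨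
            (n : ℝ) + spare N + 2 * √(N : ℝ) / 3 + 23 / 8 ≤ (N : ℝ) / 4))) →
      ∀ (s : ℕ) (w : Fin s → ℕ), mults w = ∑ i, v i + W → Smooth w) ∧
    (∀ N m D : ℕ, 1 ≤ m → (N = 1 ∨ N = 21 ∨ 37 ≤ N ∨ Number N) → 1 ≤ D →
      (D + 1).choose 2 ≤ N * (m + 1).choose 2 → N * (m + 1).choose 2 ≤ (D + 2).choose 2 →
      Critical D (Multiset.replicate N m)) := by
  refine ⟨fun n D v W hv h s w hw => ?_, fun N m D hm hN hD h1 h2 => ?_⟩
  · exact smooth_of (Run7.h595.CM.SMAll_of
      (fun d => Run7.h595.CM.composition D v W (fun i => crit_iff.1 (hv i)) h d) s w hw)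
  · exact crit_iff.2 (Run7.h595.CM.crit_uniform hm hN hD h1 h2)

end Pool.Agent.Results.MP_0421d9_ag.CompositionSmooth
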