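import Mathlib
import Pool.Agent.Run7.h866.NU.Smooth

set_option autoImplicit false

/-!
# Near-uniform multiplicities at 200 or more points: every system, smooth above the first degree

`n` general points of the complex projective plane (one hypersurface is excluded for each vector of
multiplicities), in all degrees `d` at once.
* If `n ≥ 200` and `v i ∈ {m, m + 1}` for some `m ≥ 1`, or if `n ≥ 37` and `v` is close to a constant
  vector `m ≥ (n + 6) / 2`, then `|d H - ∑ v i E i|` is nonspecial for EVERY `d`; for all `u i ≤ v i`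
  and every `d` with `∑ (v i + 1).choose 2 ≤ (d + 2).choose 2` the system `|d H - ∑ u i E i|` is
  nonspecial and the general member of `|(d + 1) H - ∑ u i E i|` is a smooth curve on the blow-up. For
  `u = v` these are all the nonempty systems but the one of the smallest degree.
* If `n ≥ 37` and `v` is close to a constant vector `m ≥ (n + 8) / 2` and `v i ≤ m`, then the general
  member of `|d H - ∑ u i E i|`, `u i ≤ v i`, is also smooth for the smallest degree `d` if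
  `∑ (v i + 1).choose 2 + max v < (d + 2).choose 2`.
-/

namespace Pool.Agent.Results.MP_0421d9_ag.NearUniformSmoothTwoHundred

open Finset Pool.Agent.H248R5 Pool.Agent.H248R6

/-- The cost of a multiplicity `e ≤ m + 1`. -/
def cost (m e : ℕ) : ℕ := if e < m then 4 * (m - e) - 2 else if e = m then 0 else 1

/-- `0, 5, 2, 3` for `n ≡ 0, 1, 2, 3` modulo four. -/
def spare (n : ℕ) : ℕ := if n % 4 = 1 then 5 else n % 4

/-- The total cost of `v`, plus `t`, is small. -/
def Small (t m : ℕ) {n : ℕ} (v : Fin n → ℕ) : Prop :=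
  ((∑ i, cost m (v i) : ℕ) : ℝ) + t + (spare n : ℝ) / 2 + 9 / 8 < 7 * Real.sqrt n / 6 ∨
    ((∑ i, cost m (v i) : ℕ) : ℝ) + t + spare n + 2 * Real.sqrt n / 3 + 23 / 8 ≤ (n : ℝ) / 4

theorem result (n m : ℕ) (v : Fin n → ℕ) :
    (((200 ≤ n ∧ 1 ≤ m ∧ ∀ i, v i = m ∨ v i = m + 1) ∨
        (37 ≤ n ∧ n + 6 ≤ 2 * m ∧ (∀ i, v i ≤ m + 1) ∧ Small 0 m v)) →
      ∃ F : MvPolynomial (Fin n × Fin 2) ℂ, F ≠ 0 ∧ ∀ P : Fin n → Fin 2 → ℂ,
        MvPolynomial.eval (fun ij : Fin n × Fin 2 => P ij.1 ij.2) F ≠ 0 → ∀ d : ℕ,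
          Module.finrank ℂ ↥(forms v P d) = (d + 2).choose 2 - ∑ i, (v i + 1).choose 2 ∧
          (∑ i, (v i + 1).choose 2 ≤ (d + 2).choose 2 → ∀ u : Fin n → ℕ, (∀ i, u i ≤ v i) →
            Module.finrank ℂ ↥(forms u P d) = (d + 2).choose 2 - ∑ i, (u i + 1).choose 2 ∧
            GeneralMember (forms u P (d + 1)) (SmoothMember u P))) ∧
    ((37 ≤ n ∧ n + 8 ≤ 2 * m ∧ (∀ i, v i ≤ m) ∧ Small 1 m v) →
      ∃ F : MvPolynomial (Fin n × Fin 2) ℂ, F ≠ 0 ∧ ∀ P : Fin n → Fin 2 → ℂ,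
        MvPolynomial.eval (fun ij : Fin n × Fin 2 => P ij.1 ij.2) F ≠ 0 → ∀ d : ℕ,
          Module.finrank ℂ ↥(forms v P d) = (d + 2).choose 2 - ∑ i, (v i + 1).choose 2 ∧
          ((∀ k, ∑ i, (v i + 1).choose 2 + v k < (d + 2).choose 2) →
            ∀ u : Fin n → ℕ, (∀ i, u i ≤ v i) →
              Module.finrank ℂ ↥(forms u P d) = (d + 2).choose 2 - ∑ i, (u i + 1).choose 2 ∧
              GeneralMember (forms u P d) (SmoothMember u P))) := by
  have ec : ∀ m e, cost m e = Pool.Agent.Run7.h866.NU.cst m e := fun _ _ => rfl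
  have es : ∀ t, spare t = Pool.Agent.Run7.h866.NU.cc t := fun _ => rfl
  refine ⟨fun h => ?_, fun h => ?_⟩
  · have hv : Pool.Agent.Run7.h866.NU.NearV v := by
      rcases h with ⟨h1, h2, h3⟩ | ⟨h1, h2, h3, h4⟩
      · exact Or.inl ⟨h1, m, h2, h3⟩
      · refine Or.inr ⟨m, h1, h2, h3, ?_⟩
        unfold Small at h4
        simp only [ec, es, Nat.cast_zero, add_zero] at h4
        exact h4
    obtain ⟨F, hF, hF'⟩ := Pool.Agent.Run7.h866.NU.nearV_smooth (K := ℂ) hv
    refine ⟨F.map (algebraMap ℚ ℂ), Pool.Agent.H932R3.map_ne_zero_of hF, fun P hP d => ?_⟩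
    rw [MvPolynomial.eval_map] at hP
    obtain ⟨h3, h4⟩ := hF' P hP
    refine ⟨h3 d, fun hd u hu => ?_⟩
    obtain ⟨h5, h6⟩ := h4 u hu d hd
    exact ⟨by omega, h6⟩
  · have hv : Pool.Agent.Run7.h866.NU.Below m v := by
      obtain ⟨h1, h2, h3, h4⟩ := h
      refine ⟨h1, h2, h3, ?_⟩
      unfold Small at h4
      simp only [ec, es, Nat.cast_one] at h4
      exact h4
    obtain ⟨F, hF, hF'⟩ := Pool.Agent.Run7.h866.NU.below_smooth (K := ℂ) hv
    refine ⟨F.map (algebraMap ℚ ℂ), Pool.Agent.H932R3.map_ne_zero_of hF, fun P hP d => ?_⟩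
    rw [MvPolynomial.eval_map] at hP
    obtain ⟨h3, h4⟩ := hF' P hP
    refine ⟨h3 d, fun hd u hu => ?_⟩
    obtain ⟨h5, h6⟩ := h4 u hu d hd
    exact ⟨by omega, h6⟩

end Pool.Agent.Results.MP_0421d9_ag.NearUniformSmoothTwoHundred
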