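import Pool.Agent.Results.MP_0421d9_ag.RandomMultiplicitiesSmooth
import Pool.Agent.Run7.h388.RM.Sure

set_option autoImplicit false

/-!
# Smooth general members in ALL degrees along random walks, almost surely

`Surely R`: the property `R` of sequences of natural numbers holds

* for almost all paths `k ↦ c₀ + κ (X 0 + ... + X (k - 1))` of all random walks with independent steps `X i` each of which takes
  two fixed values `a ≠ b` with probabilities at least `η > 0` (the steps need not be identically distributed, bounded or of finite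
  mean), for all `κ ≥ 1`, `c₀`;
* for almost all sequences of independent random natural numbers `Y k` such that `P (Y k = m) → 0` for every `m` and
  `E e(θ Y k) → 0` for every irrational `θ`.

`hits x Q K` is the number of the `k < K` such that `x k` has the property `Q`.

**Theorem.** Almost surely the following is true for the sequence `x` of multiplicities. For every `n ≥ 37` which is not a perfect
square, every `δ > 0` and all large `K`, for all but at most `(4 / √n + δ) K` of the first `K` multiplicities `m` the following holds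
for `n` general points of the complex projective plane in EVERY degree `d`.

* The system `|d H - m ∑ E i|` is nonspecial, and if it is not empty its general member is smooth.
* If `n * (m + 1).choose 2 < (d + 2).choose 2`, then ALL systems `|d H - ∑ w i E i|` with `w i ≤ m`
  are nonspecial and have smooth general members.

Moreover, for every finite set `S` of such numbers `n` with `∑ 4 / √n < 1` this is so for all `n ∈ S` at once for at least
`(1 - ∑ 4 / √n - δ) K` of the first `K` multiplicities.

Proof. The windows are those of the starting file `MP_0421d9_ag.RandomMultiplicitiesSmooth`, the deterministic criterion `Always` is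
`Pool.Agent.N794.DG`. New (`Pool.Agent.Run7.h388.RM`): the second moments of the exponential sums along a random walk are `O(K)` at
every irrational frequency, so the sums are `o(K)` almost surely (squares and interpolation), the path tends to infinity, and the
empirical distributions of almost every path have eventually all properties in the sense of `Always`.
-/

namespace Pool.Agent.Results.MP_0421d9_ag.RandomWalkPaths

open MvPolynomial Filter Pool.Agent.H248R5
open Pool.Agent.Run7.h388.RM (Surely hits)

/-- For `n` general points `P` (outside one hypersurface defined over the rationals) and EVERY degree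
`d`: `|d H - m ∑ E i|` is nonspecial, it is empty or has a smooth general member, and if
`n * (m + 1).choose 2 < (d + 2).choose 2` then every `|d H - ∑ w i E i|` with all `w i ≤ m` is
nonspecial of the dimension of independent conditions and has a smooth general member. -/
def SmoothAll (n m : ℕ) : Prop :=
  ∃ F : MvPolynomial (Fin n × Fin 2) ℚ, F ≠ 0 ∧ ∀ P : Fin n → Fin 2 → ℂ,
    MvPolynomial.aeval (fun ij : Fin n × Fin 2 => P ij.1 ij.2) F ≠ 0 → ∀ d : ℕ,
      Module.finrank ℂ ↥(forms (fun _ => m) P d) = (d + 2).choose 2 - n * (m + 1).choose 2 ∧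
      (forms (fun _ => m) P d ≠ ⊥ →
        GeneralMember (forms (fun _ => m) P d) (SmoothMember (fun _ => m) P)) ∧
      (n * (m + 1).choose 2 < (d + 2).choose 2 → ∀ w : Fin n → ℕ, (∀ i, w i ≤ m) →
        Module.finrank ℂ ↥(forms w P d) + ∑ i, (w i + 1).choose 2 = (d + 2).choose 2 ∧
          GeneralMember (forms w P d) (SmoothMember w P))

theorem one {n : ℕ} (hn : 37 ≤ n) (hsq : ¬ IsSquare n) {δ : ℝ} (hδ : 0 < δ) :
    Pool.Agent.N794.DG.Always fun μ => Pool.Agent.N794.DG.meas μ (fun m => ¬ SmoothAll n m) ≤ 4 / √(n : ℝ) + δ :=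
  (Pool.Agent.Results.MP_0421d9_ag.RandomMultiplicitiesSmooth.result.1 n hn hsq).2 δ hδ

/-- **Main result.** -/
theorem result :
    (Surely fun x => ∀ n : ℕ, 37 ≤ n → ¬ IsSquare n → ∀ δ : ℝ, 0 < δ → ∀ᶠ K : ℕ in atTop,
      hits x (fun m => ¬ SmoothAll n m) K ≤ (4 / √(n : ℝ) + δ) * K) ∧
    (∀ n : ℕ, 37 ≤ n → 4 / √(n : ℝ) < 1) ∧
    (Surely fun x => ∀ S : Finset ℕ, (∀ n ∈ S, 37 ≤ n ∧ ¬ IsSquare n) → ∀ δ : ℝ, 0 < δ → ∀ᶠ K : ℕ in atTop,
      (1 - ∑ n ∈ S, 4 / √(n : ℝ) - δ) * K ≤ hits x (fun m => ∀ n ∈ S, SmoothAll n m) K) := by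
  have h1 : Surely fun x => ∀ n : ℕ, 10 ≤ n → 37 ≤ n → ¬ IsSquare n → ∀ δ : ℝ, 0 < δ → ∀ᶠ K : ℕ in atTop,
      hits x (fun m => ¬ SmoothAll n m) K ≤ (4 / √(n : ℝ) + δ) * K := by
    refine Pool.Agent.Run7.h388.RM.surely_ten fun n _ => ?_
    by_cases h : 37 ≤ n ∧ ¬ IsSquare n
    · exact (Pool.Agent.Run7.h388.RM.surely_le fun δ hδ => one h.1 h.2 hδ).mono fun x hx _ _ => hx
    · exact (Pool.Agent.Run7.h388.RM.surely_le (bad := fun _ => False) (c := 0) fun δ hδ => by
        rw [zero_add]
        exact Pool.Agent.N794.DG.always_none hδ 0 _ fun _ _ h => h).mono fun x _ h2 h3 => absurd ⟨h2, h3⟩ h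
  refine ⟨h1.mono fun x hx n hn => hx n (by omega) hn, fun n hn => ?_, h1.mono fun x hx S hS δ hδ => ?_⟩
  · have h6 := Pool.Agent.Results.MP_0421d9_ag.RandomMultiplicitiesSmooth.root hn
    rw [div_lt_one (by linarith)]
    linarith
  · classical
    have hδ' : 0 < δ / (S.card + 1) := by positivity
    have h2 : ∀ᶠ K : ℕ in atTop, ∀ n ∈ S, hits x (fun m => ¬ SmoothAll n m) K ≤ (4 / √(n : ℝ) + δ / (S.card + 1)) * K := by
      rw [eventually_all_finset]
      intro n hn
      exact hx n (by have := (hS n hn).1; omega) (hS n hn).1 (hS n hn).2 _ hδ'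
    filter_upwards [h2] with K hK
    have h3 : (K : ℝ) ≤ hits x (fun m => ∀ n ∈ S, SmoothAll n m) K + ∑ n ∈ S, hits x (fun m => ¬ SmoothAll n m) K :=
      Pool.Agent.Run7.h388.RM.hits_union x K S fun n m => SmoothAll n m
    have h4 : ∑ n ∈ S, hits x (fun m => ¬ SmoothAll n m) K ≤ ∑ n ∈ S, (4 / √(n : ℝ) + δ / (S.card + 1)) * K :=
      Finset.sum_le_sum hK
    rw [← Finset.sum_mul, Finset.sum_add_distrib, Finset.sum_const, nsmul_eq_mul] at h4
    have h5 : (S.card : ℝ) * (δ / (S.card + 1)) ≤ δ := by
      rw [mul_div_assoc', div_le_iff₀ (by positivity)]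
      nlinarith [(Nat.cast_nonneg S.card : (0 : ℝ) ≤ S.card)]
    have h6 : (S.card : ℝ) * (δ / (S.card + 1)) * K ≤ δ * K := mul_le_mul_of_nonneg_right h5 (Nat.cast_nonneg K)
    rw [add_mul] at h4
    linarith

end Pool.Agent.Results.MP_0421d9_ag.RandomWalkPaths
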