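import Mathlib
import Pool.Agent.Results.MP_0421d9_ag.AllNumbersExactSmooth
import Pool.Agent.Run7.h823.NG.S4
import Pool.Agent.Run7.h823.NG.S6

set_option autoImplicit false

/-!
# Smooth general members in ALL degrees: multiplicities in sparse families of residues

Let `n ≥ 37` be not a perfect square, let `y_i`, `i ∈ s`, be any finite family of residues modulo an integer `q`,
represented by the least residues `0 ≤ y_i < q`, whose Fourier coefficients at the nonzero frequencies are at most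
`1 / (K log q)` times their number (`Flat`), `K` large in terms of `n` and `δ`, and `q ≥ K`, and let `c₀` be any natural
number. The family can be very sparse, for instance have only `q ^ ε` members. For all multiplicities `m = c₀ + y_i ≥ n`
outside of a proportion of at most `4 / √n + δ` of the family, `4 / √n < 1`, and `n` general points of the complex
projective plane the following holds in EVERY degree `d`.

* The system `|d H - m ∑ E i|` is nonspecial, and if it is not empty its general member is smooth.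
* If `n * (m + 1).choose 2 < (d + 2).choose 2`, then ALL systems `|d H - ∑ w i E i|` with `w i ≤ m`
  are nonspecial and have smooth general members.

Examples of such families (for every `K`, `ε > 0`, `k` and all large primes `m`): the first `N ≥ m ^ ε` values
`c_1 g_1 ^ n + ... + c_k g_k ^ n` modulo `m`, `n < N`, `c ≠ 0`, where the orders of the `g_i` and of the quotients `g_i / g_j`,
`i ≠ j`, are at least `m ^ ε`; and for every integer `b ≥ 2` and all but `C X ^ ε` of the primes `m ≤ X`: the residues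
`x b ^ n` modulo `m`, `n < N`, for every `N ≥ m ^ ε` and every `x ≠ 0`. For instance the multiplicities `2 ^ n mod m`,
`n < m ^ ε`.

From Mathlib: `ZMod.stdAddChar`: the additive character `j ↦ exp (2 π i j / q)` of the integers modulo `q`; `ZMod.val`: the
least residue.

Proof. The windows are those of the starting file `ThinSequencesSmooth`. The exponential sums of `θ y_i`, `θ` irrational,
are estimated by the Fourier coefficients modulo `q` (`Pool.Agent.Run7.h823.NG`); those of short recurrences by the method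
of Bourgain, Glibichuk and Konyagin (`Pool.Agent.Run7.h823.BK`).
-/

namespace Pool.Agent.Results.MP_0421d9_ag.ResidueMultiplicities

open MvPolynomial Filter Pool.Agent.H248R5
open Pool.Agent.Run7.h823.NG (win_flat alg_root)

/-- For `n` general points `P` (outside one hypersurface defined over the rationals) and EVERY degree
`d`: `|d H - m ∑ E i|` is nonspecial, it is empty or has a smooth general member, and if
`n * (m + 1).choose 2 < (d + 2).choose 2` then every `|d H - ∑ w i E i|` with all `w i ≤ m` is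
nonspecial of the dimension of independent conditions and has a smooth general member. -/
def SmoothAll (n m : ℕ) : Prop :=
  ∃ F : MvPolynomial (Fin n × Fin 2) ℚ, F ≠ 0 ∧ ∀ P : Fin n → Fin 2 → ℂ,
    MvPolynomial.aeval (fun ij : Fin n × Fin 2 => P ij.1 ij.2) F ≠ 0 → ∀ d : ℕ,
      Module.finrank ℂ ↥(forms (fun _ => m) P d) = (d + 2).choose 2 - n * (m + 1).choose 2 ∧
      (forms (fun _ => m) P d ≠ ⊥ →
        GeneralMember (forms (fun _ => m) P d) (SmoothMember (fun _ => m) P)) ∧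
      (n * (m + 1).choose 2 < (d + 2).choose 2 → ∀ w : Fin n → ℕ, (∀ i, w i ≤ m) →
        Module.finrank ℂ ↥(forms w P d) + ∑ i, (w i + 1).choose 2 = (d + 2).choose 2 ∧
          GeneralMember (forms w P d) (SmoothMember w P))

/-- The Fourier coefficients of the residues `y i`, `i ∈ s`, modulo `q` at the nonzero frequencies are at most `η` times the
number of the residues: `|∑ i ∈ s, e(h y_i / q)| ≤ η |s|` for all `h ≠ 0` modulo `q`. -/
def Flat {τ : Type} (q : ℕ) [NeZero q] (η : ℝ) (s : Finset τ) (y : τ → ZMod q) : Prop :=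
  ∀ h : ZMod q, h ≠ 0 → ‖∑ i ∈ s, (ZMod.stdAddChar (h * y i) : ℂ)‖ ≤ η * s.card

/-- The natural number `c₀ + y_i`, with the least residue `0 ≤ y_i < q`. -/
def mult {τ : Type} {q : ℕ} (y : τ → ZMod q) (c₀ : ℕ) (i : τ) : ℕ := c₀ + (y i).val

theorem root {n : ℕ} (hn : 37 ≤ n) : 6 ≤ √(n : ℝ) := by
  apply Real.le_sqrt_of_sq_le
  have : (37 : ℝ) ≤ n := by exact_mod_cast hn
  linarith

theorem window {n m : ℕ} (hn : 37 ≤ n) (hm : n ≤ m) (h : ¬ SmoothAll n m) : ∃ z : ℤ,
    -(2 / √(n : ℝ)) ≤ √(n : ℝ) * m + (√(n : ℝ) - 3) / 2 - z ∧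
      √(n : ℝ) * m + (√(n : ℝ) - 3) / 2 - z ≤ 2 / √(n : ℝ) := by
  by_contra hcon
  push Not at hcon
  apply h
  have hs6 := root hn
  have hs0 : 0 < √(n : ℝ) := by linarith
  have hss : √(n : ℝ) * √(n : ℝ) = n := Real.mul_self_sqrt (Nat.cast_nonneg n)
  have hε0 : 0 < 4 / √(n : ℝ) := by positivity
  have hε1 : 4 / √(n : ℝ) ≤ 4 / 6 :=
    div_le_div_of_nonneg_left (by norm_num) (by norm_num) hs6
  have hmul : √(n : ℝ) * (4 / √(n : ℝ)) = 4 := by field_simp
  have hx : ∀ d : ℕ, 4 / √(n : ℝ) ≤ |2 * (d : ℝ) + 3 - √(n : ℝ) * (2 * m + 1)| := by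
    intro d
    have h1 := hcon (d : ℤ)
    push_cast at h1
    have e : 4 / √(n : ℝ) = 2 * (2 / √(n : ℝ)) := by ring
    rw [e, le_abs]
    rcases le_or_gt (-(2 / √(n : ℝ))) (√(n : ℝ) * m + (√(n : ℝ) - 3) / 2 - d) with h2 | h2
    · right
      have := h1 h2
      linarith
    · left
      linarith
  have hmR : (n : ℝ) ≤ m := by exact_mod_cast hm
  have hεm : √(n : ℝ) ≤ 4 / √(n : ℝ) * m := by
    rw [div_mul_eq_mul_div, le_div_iff₀ hs0, hss]
    have : (0 : ℝ) ≤ n := Nat.cast_nonneg n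
    linarith
  obtain ⟨F, hF, hF'⟩ := Pool.Agent.Results.MP_0421d9_ag.AllNumbersExactSmooth.result (n := n)
    (m := m) (by omega) (ε := 4 / √(n : ℝ)) le_rfl (by linarith) (Or.inl hn)
  refine ⟨F, hF, fun P hP d => ?_⟩
  obtain ⟨h1, h2, h3⟩ := hF' P hP d (Or.inl hn)
  refine ⟨h1, fun hne => h3 hεm (hx d) hne, fun hd w hw => h2 ?_ w hw⟩
  refine Pool.Agent.Results.MP_0421d9_ag.AllNumbersExactSmooth.gap hε0 ?_ ?_ hεm (hx d) hd
  · rw [div_div_eq_mul_div, mul_comm, mul_div_assoc, div_self (by norm_num), mul_one]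
  · linarith

/-- **Main result.** (1) The members of the families. (2), (3) Examples. -/
theorem result :
    (∀ n : ℕ, 37 ≤ n → ¬ IsSquare n → 4 / √(n : ℝ) < 1 ∧ ∀ δ : ℝ, 0 < δ → ∃ K : ℕ, 0 < K ∧
      ∀ (q : ℕ) [NeZero q], K ≤ q → ∀ (τ : Type) (s : Finset τ) (y : τ → ZMod q),
      Flat q (1 / (K * Real.log q)) s y → ∀ c₀ : ℕ,
      ({i : τ | i ∈ s ∧ n ≤ mult y c₀ i ∧ ¬ SmoothAll n (mult y c₀ i)}.ncard : ℝ) ≤ (4 / √(n : ℝ) + δ) * s.card) ∧
    (∀ (k K : ℕ) (ε : ℝ), 0 < K → 0 < ε → ∃ m₀ : ℕ, ∀ (m : ℕ) [Fact m.Prime], m₀ ≤ m →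
      ∀ (c : Fin k → ZMod m) (g : Fin k → (ZMod m)ˣ) (N : ℕ), c ≠ 0 → (∀ i, (m : ℝ) ^ ε ≤ orderOf (g i)) →
      (∀ i j, i ≠ j → (m : ℝ) ^ ε ≤ orderOf (g i / g j)) → (m : ℝ) ^ ε ≤ N →
      Flat m (1 / (K * Real.log m)) (Finset.range N) (fun n => ∑ i, c i * (g i : ZMod m) ^ n)) ∧
    (∀ (b K : ℕ) (ε : ℝ), 2 ≤ b → 0 < K → 0 < ε → ∃ C : ℝ, ∀ X : ℕ, 1 ≤ X → ∀ Q : Finset ℕ,
      (∀ m ∈ Q, m ≤ X ∧ ∃ _ : Fact m.Prime, ¬ ∀ N : ℕ, (m : ℝ) ^ ε ≤ N → ∀ x : ZMod m, x ≠ 0 →
        Flat m (1 / (K * Real.log m)) (Finset.range N) (fun n => x * (b : ZMod m) ^ n)) →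
      (Q.card : ℝ) ≤ C * (X : ℝ) ^ ε) := by
  refine ⟨?_, ?_, ?_⟩
  · intro n hn hsq
    have hs6 := root hn
    have hs0 : 0 < √(n : ℝ) := by linarith
    have hε1 : 4 / √(n : ℝ) ≤ 4 / 6 :=
      div_le_div_of_nonneg_left (by norm_num) (by norm_num) hs6
    refine ⟨by linarith, ?_⟩
    intro δ hδ
    have hirr : Irrational √(n : ℝ) := irrational_sqrt_natCast_iff.2 hsq
    have e : 4 / √(n : ℝ) = 2 / √(n : ℝ) - (-(2 / √(n : ℝ))) := by ring
    have h2 : 0 ≤ 2 / √(n : ℝ) := by positivity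
    rw [e]
    obtain ⟨K, hK, h⟩ := win_flat hirr (alg_root n) ((√(n : ℝ) - 3) / 2)
      (lo := -(2 / √(n : ℝ))) (hi := 2 / √(n : ℝ)) (by linarith)
      (bad := fun m => n ≤ m ∧ ¬ SmoothAll n m) (fun m _ hbad => window hn hbad.1 hbad.2) hδ
    refine ⟨K, hK, fun q _ hq τ s y hf c₀ => le_trans ?_ (h q hq τ s y hf (c₀ : ℤ))⟩
    apply Pool.Agent.Run7.h823.WF.ncard_mono
    rintro i _ ⟨h1, h3⟩
    refine ⟨mult y c₀ i, by omega, ?_, h1, h3⟩
    unfold mult
    push_cast
    rfl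
  · exact fun k K ε hK hε => Pool.Agent.Run7.h823.NG.ex_rec k K hK hε
  · exact fun b K ε hb hK hε => Pool.Agent.Run7.h823.NG.ex_pow b K hb hK hε

end Pool.Agent.Results.MP_0421d9_ag.ResidueMultiplicities
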